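import Pool.Agent.helper37.ND.Spec

/-!
# MP_baa4d7_al, theorem ND, row GBC
-/

set_option autoImplicit false

namespace Pool.Agent.ND

open Pool.Agent.helper58.DC Pool.Agent.DI Pool.Agent.GR Pool.Agent.OB Pool.Agent.DR Pool.Agent.FI Pool.Agent.FI3 Pool.Agent.FI4 Pool.Agent.FI4I Pool.Agent.LE Pool.Agent.L5 Pool.Agent.NAB

theorem GBC (hNUB : NUB_stmt) (hCJG : CJG_stmt) (hZGP : ZGP_stmt) (hTPR : FI.TPR_stmt) (hTRN : TRN_stmt) (hB2 : B2_stmt) (hFEQ : FEQ_stmt) : GBC_stmt := by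
  intro p e m M hS hm G _ _ χ L Z
  have hp : p.Prime := hS.pr
  have h3 : ∀ (L : Subgroup G), ∀ n ∈ nz Z, ∀ ψ ∈ GS p e m M χ L Z, cjF n ψ ∈ GS p e m M χ (cjS n L) Z := by
    intro L n hn ψ hψ
    obtain ⟨h1, h2, z, x, hU, hZ⟩ := hψ
    refine ⟨(hCJG G M p n L).1 ψ h1, ?_, n * z * n⁻¹, n * x * n⁻¹, ((hNUB p e m M hS G L ψ z x hU).2.1 n), ?_⟩
    · exact SB.trans ((hCJG G M p n ⊤).2.2.2.2.2.1 (Subgroup.mem_top n) ψ).1 h2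
    · rw [(hZGP p e m hp hm G z hU.pe hU.od).1 n, hZ]
      exact (hFEQ G M n n Z Z L ψ ψ χ).2.1.2.2.2.1.2 hn
  refine ⟨⟨fun ψ hψ => hψ.1, ?_⟩, ?_, h3 L, ?_⟩
  · intro ψ hψ ψ' hψ' hb
    obtain ⟨h1, h2, z, x, hU, hZ⟩ := hψ
    have hSB : SB M L ψ ψ' := hb
    have h5 := (hTRN G M L ⊤ le_top ψ ψ' χ h1.1 hψ'.1 hSB).2
    exact ⟨hψ', h5.2 h2, z, x, (hNUB p e m M hS G L ψ z x hU).1 ψ' hSB, hZ⟩
  · intro hχ z x hU hZ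
    ext ψ
    constructor
    · intro h
      exact ⟨h.1, h.2.1⟩
    · intro h
      exact ⟨h.1, h.2, z, x, (hNUB p e m M hS G ⊤ χ z x hU).1 ψ (SB.symm h.2), hZ⟩
  · intro n hn ψ hψ
    have h4 := h3 (cz Z) n hn ψ hψ
    have h5 : cjS n (cz Z) = cz Z := by
      have h6 := (hFEQ G M n n Z Z L ψ ψ χ).2.1
      rw [← h6.1, h6.2.2.2.1.2 hn]
    rw [h5] at h4
    exact h4

end Pool.Agent.ND
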